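import Pool.Agent.UPQ.C.Ind
import Pool.Agent.MD.S.Main

/-!
# UPQ-Main: quadratic towers in which the places above `V` have even local degrees

For a field `F` reached by `n ≤ N + 2` quadratic steps in which all places above `V` have even local
degrees, the hypothesis on the next `j` levels gives `TowQ D a Q j F.F`; then `tow_hw`. The other
two statements are `p1b`.
-/

namespace Pool.Agent.UPQ

open Polynomial
open NumberField IsDedekindDomain Pool.Agent.HWR Pool.Agent.QD Pool.Agent.QD.In Pool.Agent.LD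
  Pool.Agent.MD Pool.Agent.THF

/-- an extension of `F` as an extension of `k` -/
private noncomputable def up {k : Type} [Field k] [NumberField k] (F : Ext k) (L : Type) [Field L]
    [NumberField L] [Algebra F.F L] : Ext k :=
  { F := L
    alg := ((algebraMap F.F L).comp (algebraMap k F.F)).toAlgebra }

private noncomputable instance upAlg {k : Type} [Field k] [NumberField k] (F : Ext k) (L : Type)
    [Field L] [NumberField L] [i : Algebra F.F L] : Algebra F.F (up F L).F := i

private instance upTow {k : Type} [Field k] [NumberField k] (F : Ext k) (L : Type) [Field L]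
    [NumberField L] [Algebra F.F L] : IsScalarTower k F.F (up F L).F :=
  IsScalarTower.of_algebraMap_eq' rfl

private theorem up_QTn {k : Type} [Field k] [NumberField k] {n : ℕ} {F : Ext k} (h : QTn k n F)
    (L : Type) [Field L] [NumberField L] [Algebra F.F L] (hd : Module.finrank F.F L = 2) :
    QTn k (n + 1) (up F L) :=
  QTn.step (F := F) (F' := up F L) (upAlg F L) (upTow F L) h hd

private theorem main_tow {k : Type} [Field k] [NumberField k] {T : Finset ℕ} (D : LocData T)
    (a : ℕ → ℝ) {V : Finset (HeightOneSpectrum (𝓞 k))} {B : ℕ} {Q : ℂ[X]}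
    (H : ∀ n : ℕ, n ≤ B → ∀ F : Ext k, QTn k n F → AllEven V F → HWQ D a Q F.F) (i : ℕ) :
    ∀ n : ℕ, n + i ≤ B → ∀ F : Ext k, QTn k n F → AllEven V F → TowQ D a Q i F.F := by
  induction i with
  | zero => exact fun n hn F hF hE => H n (by omega) F hF hE
  | succ i ih =>
    intro n hn F hF hE
    refine ⟨H n (by omega) F hF hE, ?_⟩
    intro L _ _ _ hd
    exact ih (n + 1) (by omega) (up F L) (up_QTn hF L hd) (od_down (F := F) (up F L) hE)

theorem up_main (k : Type) [Field k] [NumberField k] (T : Finset ℕ) (hTp : ∀ p ∈ T, p.Prime)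
    (hT : ∀ p : ℕ, p.Prime → p < 101 → p ∈ T) (D : LocData T) (a : ℕ → ℝ)
    (ha : ∀ q : ℕ, |a q| ≤ 2 * Real.sqrt q) (hfr : FrobRel T a)
    (haz : ∀ q : ℕ, ∃ n : ℤ, a q = n)
    (V : Finset (HeightOneSpectrum (𝓞 k))) (hV : ∀ v ∈ V, Away k T v) (N j : ℕ) {Q : ℂ[X]}
    (hQ : Q ≠ 0) (hQj : ∀ z : ℂ, 1 ≤ z.re → z.re ≤ 3 / 2 → Q.rootMultiplicity z < 2 ^ j)
    (H : ∀ n : ℕ, n ≤ N + 2 + j → ∀ F : Ext k, QTn k n F → AllEven V F → HWQ D a Q F.F) :
    (∀ n : ℕ, n ≤ N + 2 → ∀ F : Ext k, QTn k n F → AllEven V F → D.HW a F.F) ∧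
      (∀ n : ℕ, n ≤ N → ∀ F : Ext k, QTn k (n + 1) F → D.HW a F.F) ∧ HWpm D a k := by
  have h1 : ∀ n : ℕ, n ≤ N + 2 → ∀ F : Ext k, QTn k n F → AllEven V F → D.HW a F.F :=
    fun n hn F hF hE => tow_hw hTp hT D ha hfr haz hQ hQj F.F
      (main_tow D a H j n (by omega) F hF hE)
  exact ⟨h1, p1b k T hTp hT D a ha hfr V hV N h1⟩

end Pool.Agent.UPQ
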